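import Mathlib
import Pool.Agent.H274.GL3Law

/-!
# The Ramanujan conjecture for `GL(3)` over number fields: large and small traces balance at every scale

Let `K` be a number field and `π` a unitary cuspidal automorphic representation of `GL_3` over `K`, unramified at the
finite places outside the finite set `S`, with Satake parameters `α_{i,v}`, `i = 1, 2, 3`, `v ∉ S`. Write `N v` for the
norm of `v` (`qq v` below), and let `tr_v^k = ∑_i α_{i,v}^k`. We compare the *excess* and the *deficiency*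

  `E(X) = ∑_{(N v)^k ≤ X} max(0, |tr_v^k|² - 1)`,  `D(X) = ∑_{(N v)^k ≤ X} max(0, 1 - |tr_v^k|²)`

(the mean value of `|tr_v^k|²` is one). If `|tr_v^k| < 1` for some `k ≥ 1`, then `π_v` is tempered: only tempered places
contribute to the deficiency. Violations of the Ramanujan conjecture contribute to the excess. Let `b` be the least
upper bound of the real parts of the zeros and poles of the partial adjoint `L`-function `L^S(s, π, Ad)`, and let
`θ_v = max_i log_{N v} |α_{i,v}|`.

* `1/2 ≤ b ≤ 1`, and for every `c < max(b, 2 sup_v θ_v)` and **all** large `X`: `D(X) ≥ X^c`, and there are at least `X^c`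
  places `v` with `N v ≤ X` at which `π_v` is tempered. So the larger the violation of the Ramanujan conjecture at a
  single place is, the more tempered places there are, at every scale.
* For every `ε > 0` and **all** large `X`:
  `E(X) ≤ X^ε D(X^{1+ε})` and `D(X) ≤ X^ε (X^b + E(X^{1+ε}))`.

So apart from the term `X^b`, which is prescribed by the zeros and poles, there are at each scale, up to factors
`X^{o(1)}`, exactly as many small traces as the large traces require.

Known before: the first inequality for `D` and the tempered places with `c < 1/2` or `c < Re ρ` for a singularity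
`ρ ∉ ℝ` (`MP_08cfa9_nt.TemperedEveryScaleGL3`); `∑_{N v ≤ X} ∑_i (|α_{i,v}| - 1)²` is at most `X^ε` times the number of
tempered places up to `X^{1+ε}` (`TemperedMajority`; there only the first powers occur on the left, which do not see a
single bad place); over `ℚ` the law for isobaric sums (`MP_08cfa9_nt.ExcessDeficiencyLaw`), where the quotient
`L(s, π × π~) / ζ(s)` is used. Over `K ≠ ℚ` one has to divide by `ζ_K(s)`, which may have real zeros in `(1/2, 1)`;
for `GL_3` the quotient is nevertheless holomorphic there.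
New are, for all number fields `K`, the upper bound for the deficiency, the bound for the excess with all prime powers, and
the exponent `2 θ_v`.

The structure `AdjointGL3` (from `TemperedEveryScaleGL3`) lists what is used of `π`, all of it is known: the local
components are unitary; the Rankin-Selberg series converges absolutely for `Re s > 1`; the adjoint `L`-function
`L(s, π, Ad) = L(s, π × π~) / ζ_K(s)` is meromorphic in the plane, satisfies the functional equation, has polynomial
growth in vertical strips and is holomorphic for `Re s ≥ 1/2` and for `|Im s|` large (Ginzburg-Jiang, Hundley-Zhang).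

The proof: let `F(s) = L^S(s, π, Ad)`, `log F(s) = ∑ d(q) q^{-s}`, `d((N v)^k) = (|tr_v^k|² - 1) / k`. The explicit
formula with the weight `exp(-(log q - Y)² / 4 η Y)` at a real point `σ` slightly to the right of `b` shows that the sums
of the positive and of the negative `d(q)` with `log q` near `Y` differ by at most `exp(σ Y)`; used for `d` it bounds the
excess, used for `-d` (the function `1 / F`) it bounds the deficiency. To the left of `b` the formula shows that the
negative ones contribute at least `exp((b - ε) Y)`. Finally `|α_{i,v}| = (N v)^θ` with `θ > 0` implies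
`|tr_v^k|² - 1 ≥ ((N v)^{θ k} - 1)²`, so `E(X) ≥ X^{2 θ - ε}`.
-/

set_option autoImplicit false

namespace Pool.Agent.Results.MP_8410ab_nt.ExcessDeficiencyGL3

open NumberField IsDedekindDomain Pool.Agent.TH861.GL3
open Pool.Agent.TH949.TX (AdjointGL3)

variable {K : Type*} [Field K] [NumberField K] {S : Finset (HeightOneSpectrum (𝓞 K))}

open scoped Classical in
/-- `E(X) = ∑_{(N v)^k ≤ X} max(0, |tr_v^k|² - 1)`, `v ∉ S`, `k ≥ 1` -/
noncomputable def excess (α : PL S → Fin 3 → ℂ) (X : ℝ) : ℝ :=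
  ∑' x : PL S × ℕ, if (qq x.1.1 : ℝ) ^ (x.2 + 1) ≤ X then
    max 0 (‖∑ i, α x.1 i ^ (x.2 + 1)‖ ^ 2 - 1) else 0

open scoped Classical in
/-- `D(X) = ∑_{(N v)^k ≤ X} max(0, 1 - |tr_v^k|²)`, `v ∉ S`, `k ≥ 1` -/
noncomputable def deficiency (α : PL S → Fin 3 → ℂ) (X : ℝ) : ℝ :=
  ∑' x : PL S × ℕ, if (qq x.1.1 : ℝ) ^ (x.2 + 1) ≤ X then
    max 0 (1 - ‖∑ i, α x.1 i ^ (x.2 + 1)‖ ^ 2) else 0

/-- **Excess and deficiency at every scale, `GL_3` over a number field.** `F` is the partial adjoint `L`-function. -/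
theorem result {α : PL S → Fin 3 → ℂ} (h : AdjointGL3 α) :
    (∀ (v : PL S) (k : ℕ), ‖∑ i, α v i ^ (k + 1)‖ < 1 → ∀ i, ‖α v i‖ = 1) ∧
    ∃ (F : ℂ → ℂ) (b : ℝ), MeromorphicOn F Set.univ ∧
      (∀ s : ℂ, 1 < s.re → F s = Complex.exp (logAd α s)) ∧ 1 / 2 ≤ b ∧ b ≤ 1 ∧
      (∀ c : ℝ, (∃ ρ : ℂ, c < ρ.re ∧ meromorphicOrderAt F ρ ≠ 0) ↔ c < b) ∧
      (∀ c : ℝ, (c < b ∨ ∃ (v : PL S) (i : Fin 3), c < 2 * (Real.log ‖α v i‖ / Real.log (qq v.1 : ℝ))) →
        ∃ X₀ : ℝ, ∀ X : ℝ, X₀ ≤ X → X ^ c ≤ deficiency α X ∧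
          X ^ c ≤ (({v : PL S | (qq v.1 : ℝ) ≤ X ∧ ∀ i, ‖α v i‖ = 1}.ncard : ℕ) : ℝ)) ∧
      ∀ ε : ℝ, 0 < ε → ∃ X₀ : ℝ, ∀ X : ℝ, X₀ ≤ X →
        excess α X ≤ X ^ ε * deficiency α (X ^ (1 + ε)) ∧
        deficiency α X ≤ X ^ ε * (X ^ b + excess α (X ^ (1 + ε))) := by
  classical
  refine ⟨fun v k hk => ?_, ?_⟩
  · by_contra hcon
    have h1 := nontemp_pow (h.unitary v) hcon (k + 1)
    have h2 : ‖∑ i, α v i ^ (k + 1)‖ ^ 2 < 1 := by
      have h3 := norm_nonneg (∑ i, α v i ^ (k + 1))
      nlinarith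
    linarith
  obtain ⟨F, b, hF, hFE, hb2, hb1, hbS, hlaw⟩ := Pool.Agent.H274.GL3Law.law3 h
  have hE : ∀ X : ℝ, 0 < X → excess α X = Pool.Agent.H274.GL3Law.ExcY α (Real.log X) := by
    intro X hX
    unfold excess Pool.Agent.H274.GL3Law.ExcY Pool.Agent.Y816.GL3T.SS
    refine tsum_congr fun x => ?_
    simp only [Pool.Agent.TH949.TX.LL_le3 hX]
  have hD : ∀ X : ℝ, 0 < X → deficiency α X = Pool.Agent.H274.GL3Law.DefY α (Real.log X) := by
    intro X hX
    unfold deficiency Pool.Agent.H274.GL3Law.DefY Pool.Agent.Y816.GL3T.SS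
    refine tsum_congr fun x => ?_
    simp only [Pool.Agent.TH949.TX.LL_le3 hX]
  refine ⟨F, b, hF, hFE, hb2, hb1, hbS, fun c hc => ?_, fun ε hε => ?_⟩
  · obtain ⟨c₁, hc₁, hcc⟩ : ∃ c₁ : ℝ, c < c₁ ∧
        (c₁ < b ∨ ∃ (v : PL S) (i : Fin 3), c₁ < 2 * (Real.log ‖α v i‖ / Real.log (qq v.1 : ℝ))) := by
      rcases hc with hc | ⟨v, i, hc⟩
      · obtain ⟨c₁, g1, g2⟩ := exists_between hc
        exact ⟨c₁, g1, Or.inl g2⟩
      · obtain ⟨c₁, g1, g2⟩ := exists_between hc
        exact ⟨c₁, g1, Or.inr ⟨v, i, g2⟩⟩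
    have h1 := Pool.Agent.H274.GL3Law.lower3 h hlaw (by linarith) hc
    have h2 := Pool.Agent.H274.GL3Law.temp3 h hc₁ (Pool.Agent.H274.GL3Law.lower3 h hlaw (by linarith) hcc)
    refine Filter.eventually_atTop.1 ?_
    filter_upwards [Real.tendsto_log_atTop.eventually (h1.and h2), Filter.eventually_gt_atTop 0] with X hX hX0
    have e1 : Real.exp (c * Real.log X) = X ^ c := by
      rw [Real.rpow_def_of_pos hX0, mul_comm]
    rw [e1] at hX
    refine ⟨by rw [hD X hX0]; exact hX.1, hX.2.trans (le_of_eq ?_)⟩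
    have e2 : {v : PL S | Real.log (qq v.1 : ℝ) ≤ Real.log X ∧ ∀ i, ‖α v i‖ = 1} =
        {v : PL S | (qq v.1 : ℝ) ≤ X ∧ ∀ i, ‖α v i‖ = 1} := by
      ext v
      simp only [Set.mem_ofPred_eq, Real.log_le_log_iff (qq_pos v.1) hX0]
    rw [e2]
  · refine Filter.eventually_atTop.1 ?_
    filter_upwards [Real.tendsto_log_atTop.eventually (hlaw ε hε), Filter.eventually_gt_atTop 0] with X hX hX0
    have e1 : ∀ c : ℝ, Real.exp (c * Real.log X) = X ^ c := fun c => by
      rw [Real.rpow_def_of_pos hX0, mul_comm]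
    have e2 : (1 + ε) * Real.log X = Real.log (X ^ (1 + ε)) := (Real.log_rpow hX0 _).symm
    have hX1 : 0 < X ^ (1 + ε) := by positivity
    rw [e1, e1, e1, e2] at hX
    rw [hE X hX0, hE _ hX1, hD X hX0, hD _ hX1]
    exact hX.2

end Pool.Agent.Results.MP_8410ab_nt.ExcessDeficiencyGL3
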