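import Pool.Agent.H107.Ram
import Pool.Agent.V11001.KM.Near

/-!
# The Ramanujan conjecture for `GL(n)` over number fields: all places with norms near the powers of almost every number

Let `π` be a unitary cuspidal automorphic representation of `GL_n` over a number field `K`, with Satake parameters
`α_{v,i}`, `i = 1, …, n`, at the finite places `v` outside of a finite set, and let `N v` be the norm of `v`. Let
`ν m / log m → ∞`, for example `ν m = m` or `ν m = m!`, and `θ < 1`.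

For every `κ ≤ 1/2`, for all real `x > 1` outside of a set of Hausdorff dimension at most `⌊n/2⌋ (1 - 2 κ) / (1 - θ)`,
ALL but finitely many of the places `v` with `|N v - β x ^ (ν m)| ≤ x ^ (θ ν m)` for some `m` satisfy
`(N v)^{-κ} < |α_{v,i}| < (N v)^κ` for all `i`. In particular for almost every `x > 1` this holds for all
`κ > 1/2 - (1 - θ) / (2 ⌊n/2⌋)`, at once for all `θ`, for the members of a countable family of representations over
arbitrary number fields, and for countably many amplitudes `β > 0`; for `n = 2, 3` the exponent is every `κ > θ/2`.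

The structure `Params` lists what is used of `π` (it is known): the local components are unitary, so that the parameters
are permuted by `α ↦ 1 / conj α`, and the Rankin-Selberg series `log L^S(s, π × π~)` converges absolutely for `s > 1`
(Jacquet-Shalika).
-/

set_option autoImplicit false

namespace Pool.Agent.Results.MP_8410ab_nt.PlacesNearPowers

open NumberField IsDedekindDomain Filter MeasureTheory
open Pool.Agent.V11001.KM (Fast Near)

/-- the norm of a finite place -/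
noncomputable def nm {K : Type} [Field K] [NumberField K] (v : HeightOneSpectrum (𝓞 K)) : ℝ :=
  (Ideal.absNorm v.asIdeal : ℝ)

/-- The Satake parameters `α v i` of a unitary cuspidal automorphic representation of `GL_n` over `K` at the finite places
`v` outside of the finite set `bad`, and what is used of them: the parameters at `v` are permuted by `α ↦ 1 / conj α`, and
the series `∑_v ∑_k |∑_i α_{v,i}^k|² / k · (N v)^{-k s}` converges for `s > 1`. -/
structure Params (K : Type) [Field K] [NumberField K] (n : ℕ) where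
  bad : Finset (HeightOneSpectrum (𝓞 K))
  α : HeightOneSpectrum (𝓞 K) → Fin n → ℂ
  unitary : ∀ v ∉ bad, ∃ σ : Equiv.Perm (Fin n), ∀ i, α v (σ i) * (starRingEnd ℂ) (α v i) = 1
  rankinSelberg : ∀ s : ℝ, 1 < s → Summable fun p : {v // v ∉ bad} × ℕ =>
    ‖∑ i, α p.1 i ^ (p.2 + 1)‖ ^ 2 / (p.2 + 1) * nm p.1.1 ^ (-(s * (p.2 + 1)))

section
variable {K : Type} [Field K] [NumberField K] {n : ℕ}

/-- some parameter at `v` is not between `(N v)^{-κ}` and `(N v)^κ` in modulus -/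
def Bad (P : Params K n) (κ : ℝ) (v : HeightOneSpectrum (𝓞 K)) : Prop :=
  v ∉ P.bad ∧ ∃ i, ¬ (nm v ^ (-κ) < ‖P.α v i‖ ∧ ‖P.α v i‖ < nm v ^ κ)

lemma two_le_nm (v : HeightOneSpectrum (𝓞 K)) : 2 ≤ nm v := Pool.Agent.H107.Ram.two_le_nm v

lemma unit_norm (P : Params K n) {v : HeightOneSpectrum (𝓞 K)} (hv : v ∉ P.bad) :
    ∃ σ : Equiv.Perm (Fin n), ∀ i, ‖P.α v (σ i)‖ = ‖P.α v i‖⁻¹ := by
  obtain ⟨σ, hσ⟩ := P.unitary v hv
  refine ⟨σ, fun i => ?_⟩
  have h := congrArg norm (hσ i)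
  rw [norm_mul, norm_one, RCLike.norm_conj] at h
  exact eq_inv_of_mul_eq_one_left h

lemma Bad.large {P : Params K n} {κ : ℝ} {v : HeightOneSpectrum (𝓞 K)} (h : Bad P κ v) :
    v ∉ P.bad ∧ ∃ i, nm v ^ κ ≤ ‖P.α v i‖ := by
  obtain ⟨hv, i, hi⟩ := h
  refine ⟨hv, ?_⟩
  by_contra hcon
  push Not at hcon
  refine hi ⟨?_, hcon i⟩
  obtain ⟨σ, hσ⟩ := unit_norm P hv
  have h3 := hcon (σ i)
  have hN := two_le_nm v
  have hN0 : 0 < nm v := by linarith
  have hpos : 0 < nm v ^ κ := Real.rpow_pos_of_pos hN0 _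
  obtain ⟨σ', hσ'⟩ := P.unitary v hv
  have hne : 0 < ‖P.α v i‖ := by
    rw [norm_pos_iff]
    intro h0
    have := hσ' i
    rw [h0, map_zero, mul_zero] at this
    exact zero_ne_one this
  rw [hσ i] at h3
  rw [Real.rpow_neg hN0.le]
  exact inv_lt_of_inv_lt₀ hne h3

lemma Bad.mono {P : Params K n} {κ κ' : ℝ} (h : κ ≤ κ') {v : HeightOneSpectrum (𝓞 K)} (hb : Bad P κ' v) :
    Bad P κ v := by
  obtain ⟨hv, i, hi⟩ := hb
  have hN := two_le_nm v
  refine ⟨hv, i, fun h' => hi ⟨?_, ?_⟩⟩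
  · exact lt_of_le_of_lt (Real.rpow_le_rpow_of_exponent_le (by linarith) (by linarith)) h'.1
  · exact h'.2.trans_le (Real.rpow_le_rpow_of_exponent_le (by linarith) h)

/-- one representation, one exponent -/
lemma one (P : Params K n) {ν : ℕ → ℝ} (hν : Fast ν) {θ : ℝ} (hθ : θ < 1) {κ : ℝ} (hκ : 0 < κ) (hκ2 : κ ≤ 1 / 2)
    (B : Set ℝ) (hB : B.Countable) :
    ∃ E : Set ℝ, dimH E ≤ ENNReal.ofReal ((((n / 2 : ℕ) : ℝ) * (1 - 2 * κ)) / (1 - θ)) ∧
      ∀ x : ℝ, 1 < x → x ∉ E → ∀ β ∈ B, 0 < β → {v | Bad P κ v ∧ Near ν θ β x (nm v)}.Finite := by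
  have hs : 0 ≤ ((n / 2 : ℕ) : ℝ) * (1 - 2 * κ) := mul_nonneg (Nat.cast_nonneg _) (by linarith)
  obtain ⟨E, h1, h2⟩ := Pool.Agent.V11001.KM.family (nm : HeightOneSpectrum (𝓞 K) → ℝ) hν hs hθ B hB (J := Unit)
    (fun _ => {v : HeightOneSpectrum (𝓞 K) | v ∉ P.bad ∧ ∃ i, nm v ^ κ ≤ ‖P.α v i‖})
    (fun _ ε hε => Pool.Agent.H107.Ram.count P.bad P.α (fun v hv => unit_norm P hv) P.rankinSelberg hκ hκ2 ε hε)
  refine ⟨E, h1, fun x hx hxE β hβ hβ0 => (h2 x hx hxE β hβ hβ0 ()).subset ?_⟩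
  rintro v ⟨hv, hn⟩
  exact ⟨hv.large, hn⟩

/-- one representation, one exponent, almost every base -/
lemma one_ae (P : Params K n) {ν : ℕ → ℝ} (hν : Fast ν) {κ : ℝ} (hκ : 0 < κ) (hκ2 : κ ≤ 1 / 2)
    (B : Set ℝ) (hB : B.Countable) :
    ∀ᵐ x : ℝ, 1 < x → ∀ θ : ℝ, θ < 1 - ((n / 2 : ℕ) : ℝ) * (1 - 2 * κ) → ∀ β ∈ B, 0 < β →
      {v | Bad P κ v ∧ Near ν θ β x (nm v)}.Finite := by
  have hs : 0 ≤ ((n / 2 : ℕ) : ℝ) * (1 - 2 * κ) := mul_nonneg (Nat.cast_nonneg _) (by linarith)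
  filter_upwards [Pool.Agent.V11001.KM.ae_family (nm : HeightOneSpectrum (𝓞 K) → ℝ) hν hs B hB (J := Unit)
    (fun _ => {v : HeightOneSpectrum (𝓞 K) | v ∉ P.bad ∧ ∃ i, nm v ^ κ ≤ ‖P.α v i‖})
    (fun _ ε hε => Pool.Agent.H107.Ram.count P.bad P.α (fun v hv => unit_norm P hv) P.rankinSelberg hκ hκ2 ε hε)]
    with x hx hx1 θ hθ β hβ hβ0
  refine (hx hx1 θ hθ β hβ hβ0 ()).subset ?_
  rintro v ⟨hv, hn⟩
  exact ⟨hv.large, hn⟩

end

/-- **Theorem.** Let `P j` be the Satake parameters of a countable family of unitary cuspidal representations of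
`GL_(n j)` over number fields `K j`, let `ν m / log m → ∞` and let `B` be a countable set of real numbers.
(1) For all `N`, `0 < κ ≤ 1/2` and `θ < 1`, for all `x > 1` outside of a set of Hausdorff dimension at most
`⌊N/2⌋ (1 - 2κ) / (1 - θ)`, for all positive `β` in `B` and all `j` with `n j ≤ N`, all but finitely many of the places
`v` (outside the finite set of `P j`) with `|N v - β x ^ (ν m)| ≤ x ^ (θ ν m)` for some `m` have all their parameters
between `(N v)^{-κ}` and `(N v)^κ` in modulus.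
(2) For almost every `x > 1` the same holds for all `j`, `θ < 1` and `0 < κ ≤ 1/2` with `⌊n j / 2⌋ (1 - 2κ) < 1 - θ`. -/
theorem result {J : Type} [Countable J] (K : J → Type) [∀ j, Field (K j)] [∀ j, NumberField (K j)] (n : J → ℕ)
    (P : ∀ j, Params (K j) (n j)) (ν : ℕ → ℝ) (hν : Fast ν) (B : Set ℝ) (hB : B.Countable) :
    (∀ (N : ℕ) (κ θ : ℝ), 0 < κ → κ ≤ 1 / 2 → θ < 1 → ∃ E : Set ℝ,
      dimH E ≤ ENNReal.ofReal ((((N / 2 : ℕ) : ℝ) * (1 - 2 * κ)) / (1 - θ)) ∧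
      ∀ x : ℝ, 1 < x → x ∉ E → ∀ β ∈ B, 0 < β → ∀ j, n j ≤ N → {v | Bad (P j) κ v ∧ Near ν θ β x (nm v)}.Finite) ∧
    ∀ᵐ x : ℝ, 1 < x → ∀ (j : J) (κ θ : ℝ), 0 < κ → κ ≤ 1 / 2 →
      ((n j / 2 : ℕ) : ℝ) * (1 - 2 * κ) < 1 - θ → ∀ β ∈ B, 0 < β →
        {v | Bad (P j) κ v ∧ Near ν θ β x (nm v)}.Finite := by
  constructor
  · intro N κ θ hκ hκ2 hθ
    choose E hE1 hE2 using fun j => one (P j) hν hθ hκ hκ2 B hB
    refine ⟨⋃ j : {j // n j ≤ N}, E j, ?_, fun x hx hxE β hβ hβ0 j hj => ?_⟩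
    · rw [dimH_iUnion]
      refine iSup_le fun j => (hE1 j.1).trans (ENNReal.ofReal_le_ofReal ?_)
      have h1 : ((n j.1 / 2 : ℕ) : ℝ) ≤ ((N / 2 : ℕ) : ℝ) := by
        exact_mod_cast Nat.div_le_div_right j.2
      refine div_le_div_of_nonneg_right ?_ (by linarith)
      exact mul_le_mul_of_nonneg_right h1 (show (0 : ℝ) ≤ 1 - 2 * κ by linarith)
    · exact hE2 j x hx (fun h => hxE (Set.mem_iUnion.2 ⟨⟨j, hj⟩, h⟩)) β hβ hβ0
  · have hq : ∀ (j : J) (q : ℚ), ∀ᵐ x : ℝ, 0 < (q : ℝ) → (q : ℝ) ≤ 1 / 2 → 1 < x → ∀ θ : ℝ,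
        θ < 1 - ((n j / 2 : ℕ) : ℝ) * (1 - 2 * (q : ℝ)) → ∀ β ∈ B, 0 < β →
          {v | Bad (P j) q v ∧ Near ν θ β x (nm v)}.Finite := by
      intro j q
      by_cases h : 0 < (q : ℝ) ∧ (q : ℝ) ≤ 1 / 2
      · filter_upwards [one_ae (P j) hν h.1 h.2 B hB] with x hx _ _ hx1
        exact hx hx1
      · exact Filter.Eventually.of_forall fun x h1 h2 => absurd ⟨h1, h2⟩ h
    have hall : ∀ᵐ x : ℝ, ∀ (j : J) (q : ℚ), 0 < (q : ℝ) → (q : ℝ) ≤ 1 / 2 → 1 < x → ∀ θ : ℝ,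
        θ < 1 - ((n j / 2 : ℕ) : ℝ) * (1 - 2 * (q : ℝ)) → ∀ β ∈ B, 0 < β →
          {v | Bad (P j) q v ∧ Near ν θ β x (nm v)}.Finite := by
      rw [ae_all_iff]
      intro j
      rw [ae_all_iff]
      exact hq j
    filter_upwards [hall] with x hx hx1 j κ θ hκ hκ2 hcond β hβ hβ0
    set c : ℝ := ((n j / 2 : ℕ) : ℝ) with hc
    have hc0 : 0 ≤ c := Nat.cast_nonneg _
    set η : ℝ := (1 - θ - c * (1 - 2 * κ)) / (2 * c + 1) with hη
    have hη0 : 0 < η := div_pos (by linarith) (by linarith)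
    obtain ⟨q, hq1, hq2⟩ := exists_rat_btwn (show max 0 (κ - η) < κ from max_lt hκ (by linarith))
    have hq0 : 0 < (q : ℝ) := (le_max_left _ _).trans_lt hq1
    have hqη : κ - η < q := (le_max_right _ _).trans_lt hq1
    have hηc : η * (2 * c + 1) = 1 - θ - c * (1 - 2 * κ) := by
      rw [hη, div_mul_cancel₀ _ (by linarith : (2 * c + 1) ≠ 0)]
    have hcond' : θ < 1 - c * (1 - 2 * (q : ℝ)) := by
      have h1 : c * (κ - q) ≤ c * η := mul_le_mul_of_nonneg_left (by linarith) hc0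
      nlinarith
    refine (hx j q hq0 (by linarith) hx1 θ hcond' β hβ hβ0).subset ?_
    rintro v ⟨hv, hn⟩
    exact ⟨hv.mono hq2.le, hn⟩

end Pool.Agent.Results.MP_8410ab_nt.PlacesNearPowers
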