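import Mathlib
import Pool.Agent.V11171.SplitB

/-!
# The Ramanujan conjecture for `GL(3)` over number fields: tempered places which split in a given extension

Let `π` be a unitary cuspidal automorphic representation of `GL_3` over a number field `K`, and let `E / K` be a finite
extension such that the base change `π_E` exists and is cuspidal. (For a solvable Galois extension `E / K` the base change
exists by Arthur and Clozel; it is cuspidal, unless one of the intermediate base changes is automorphically induced
from a Hecke character of a cubic extension, and then `π` is tempered at all places. So in the latter case there is nothing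
to prove, and the result holds for all `π` and all solvable `E / K`.)

Let `a_v = ∑_i β_{v,i}` be the Hecke eigenvalues of `π`. We show for every `c < 1/2 + 1/(16 [E : ℚ])`:

* the series `∑ (1 - |a_v|²) (N v)^{-c}` over the places `v` of `K` at which `π_v` is tempered, `|a_v| < 1`, and which have
  an unramified place of degree one in `E`, diverges;
* the number of these `v` with `N v ≤ x` is not `O(x^c)`.

If `E / K` is a Galois extension, these are places which *split completely* in `E`. If `E` contains the `m`-th roots of
unity, these are, up to finitely many, places with `N v ≡ 1 (mod m)`. In particular, for `K = ℚ` and every `m` there are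
infinitely many primes `p ≡ 1 (mod m)` at which `π_p` is tempered, not `O(x^c)` up to `x` for
`c < 1/2 + 1/(16 φ(m))`.

For `GL(3)` (no assumption of self-duality) it is not known that the tempered places have positive density: so one
cannot combine the known results on their number (infinitely many: Ramakrishnan; at least `x^c` up to `x`, `c < 1/2`:
`TemperedEveryScaleGL3` of `MP_08cfa9_nt`) with the density of the places that split in `E`. One has to apply a
result of this kind to `π_E`, and then the places of `E` of degree at least two over `K` have to be discarded. There may be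
`x^{1/2}` of them, and they may be all the tempered places given by the results with an exponent `c < 1/2`. That is why
the exponent has to be larger than `1/2`, and we start from `SmallEigenvaluesGL3` of this problem: for `π_E` the
exponents up to `1/2 + 1/(16 [E : ℚ])` are admissible.

The starting result `MP_fa98d2_nt.TemperedSplitPrimes` is about spherical cusp forms over `ℚ` and abelian fields `E`, with the
exponent `c = 1/2` (and larger `c` only if the form is not tempered somewhere). Here `K` is arbitrary, `π` may be ramified,
`E / K` need not be abelian, and the exponents are larger than `1/2` for every `π`.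

The structure `AutomorphicGL3` (of `SmallEigenvaluesGL3`, in `Pool.Agent.TH949.RES.GL3`) lists what is used of `π_E`: unitary local
components, absolute convergence of the Rankin-Selberg series, the analytic continuation to `Re s ≥ 1/2`, the functional
equation and the growth of the adjoint `L`-function.
-/

set_option autoImplicit false

namespace Pool.Agent.Results.MP_8410ab_nt.SplitTemperedPlaces

open NumberField IsDedekindDomain Pool.Agent.TH861.GL3 Pool.Agent.TH949.RES

/-- `β` are the Satake parameters of `π` over `K` outside `T`, and `α` those of `π_E` over `E` outside `S`: they agree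
(up to order) for every place `w` of `E` of degree one over a place `v` of `K`. -/
def IsBaseChange {K E : Type} [Field K] [NumberField K] [Field E] [NumberField E] [Algebra K E]
    {T : Finset (HeightOneSpectrum (𝓞 K))} {S : Finset (HeightOneSpectrum (𝓞 E))}
    (β : PL T → Fin 3 → ℂ) (α : PL S → Fin 3 → ℂ) : Prop :=
  ∀ (v : PL T) (w : PL S), w.1.under (𝓞 K) = v.1 → qq w.1 = qq v.1 →
    Multiset.map (α w) Finset.univ.val = Multiset.map (β v) Finset.univ.val

/-- The finite place `v` of `K` has an unramified place `w` of degree one in `E`. -/
def HasDegreeOne {K : Type} (E : Type) [Field K] [NumberField K] [Field E] [NumberField E] [Algebra K E]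
    (v : HeightOneSpectrum (𝓞 K)) : Prop :=
  ∃ w : HeightOneSpectrum (𝓞 E), w.under (𝓞 K) = v ∧ qq w = qq v ∧ Algebra.IsUnramifiedAt (𝓞 K) w.asIdeal

/-- **Tempered places of `GL(3)` automorphic representations with a place of degree one in a given extension.** -/
theorem result {K E : Type} [Field K] [NumberField K] [Field E] [NumberField E] [Algebra K E]
    {T : Finset (HeightOneSpectrum (𝓞 K))} {S : Finset (HeightOneSpectrum (𝓞 E))}
    (β : PL T → Fin 3 → ℂ) (α : PL S → Fin 3 → ℂ) (h : AutomorphicGL3 α) (hβ : IsBaseChange β α) (c : ℝ)
    (hc : c < 1 / 2 + 1 / (16 * (Module.finrank ℚ E : ℝ))) :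
    (¬ Summable fun v : {v : PL T // HasDegreeOne E v.1 ∧ ‖∑ i, β v i‖ < 1 ∧ ∀ i, ‖β v i‖ = 1} =>
      (1 - ‖∑ i, β v.1 i‖ ^ 2) * (qq v.1.1 : ℝ) ^ (-c)) ∧
    (∀ C X : ℝ, ∃ x : ℝ, X ≤ x ∧ C * x ^ c <
      (({v : PL T | (qq v.1 : ℝ) ≤ x ∧ HasDegreeOne E v.1 ∧ ‖∑ i, β v i‖ < 1 ∧
        ∀ i, ‖β v i‖ = 1}.ncard : ℕ) : ℝ)) ∧
    (IsGalois K E → ∀ v : HeightOneSpectrum (𝓞 K), HasDegreeOne E v →
      {w : HeightOneSpectrum (𝓞 E) | w.under (𝓞 K) = v}.ncard = Module.finrank K E) ∧
    ∀ v : HeightOneSpectrum (𝓞 K), HasDegreeOne E v → (qq v).Coprime (Units.torsionOrder E) →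
      Units.torsionOrder E ∣ qq v - 1 := by
  have hd : (1 : ℝ) ≤ (Module.finrank ℚ E : ℝ) := by
    exact_mod_cast (Module.finrank_pos : 0 < Module.finrank ℚ E)
  have main : ∀ c : ℝ, c < 1 / 2 + 1 / (16 * (Module.finrank ℚ E : ℝ)) → ¬ Summable fun v :
      {v : PL T // HasDegreeOne E v.1 ∧ ‖∑ i, β v i‖ < 1 ∧ ∀ i, ‖β v i‖ = 1} =>
      (1 - ‖∑ i, β v.1 i‖ ^ 2) * (qq v.1.1 : ℝ) ^ (-c) :=
    fun c hc => V11171.Split.split_diverge h hβ hc
  refine ⟨main c hc, ?_, fun hG v hv => ?_, fun v hv hco => ?_⟩
  · refine count_large (N := fun v : PL T => qq v.1) (fun v => (two_le_qq v.1).trans' (by norm_num))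
      (fun b => ?_) (fun v : PL T => HasDegreeOne E v.1 ∧ ‖∑ i, β v i‖ < 1 ∧ ∀ i, ‖β v i‖ = 1) (by positivity)
      (fun c hc hs => main c hc ?_) c hc
    · exact (finite_nm_le K b).preimage Subtype.val_injective.injOn
    · refine Summable.of_nonneg_of_le (fun v => ?_) (fun v => ?_) hs
      · have := v.2.2.1
        have h1 : 0 ≤ 1 - ‖∑ i, β v.1 i‖ ^ 2 := by nlinarith [norm_nonneg (∑ i, β v.1 i)]
        have := (qq_pos v.1.1).le
        positivity
      · have := (qq_pos v.1.1).le
        refine mul_le_of_le_one_left (by positivity) ?_
        nlinarith [norm_nonneg (∑ i, β v.1 i)]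
  · exact V11171.Split.ncard_of_galois hv
  · obtain ⟨w, -, hq, -⟩ := hv
    rw [← hq] at hco ⊢
    exact torsionOrder_dvd_absNorm_sub_one w.ne_bot w.isPrime hco

end Pool.Agent.Results.MP_8410ab_nt.SplitTemperedPlaces
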