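import Mathlib
import Pool.Agent.H107.Ram
import Pool.Agent.H107.MetricFam

/-!
# The Ramanujan conjecture for `GL(n)` over number fields: all places with norms in short windows

Let `π` be a unitary cuspidal automorphic representation of `GL_n` over a number field `K`, with Satake parameters
`α_{v,i}`, `i = 1, …, n`, at the finite places `v` outside of a finite set, and let `N v` be the norm of `v`. Let
`1 ≤ u_0, u_1, …` be a sequence of reals which grows at least like a power, `∑ u_m^{-t} < ∞` for `t > τ` (`τ = 0` for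
geometric sequences, `τ = 1/d` for `u_m = m^d`), and `θ < 1`.

For every `κ ≤ 1/2`, for all `a > 0` outside of a set of Hausdorff dimension at most
`(⌊n/2⌋ (1 - 2 κ) + τ) / (1 - θ)`, for all large `m`, ALL places `v` with `|N v - a u_m| ≤ u_m^θ` satisfy
`(N v)^{-κ} < |α_{v,i}| < (N v)^κ` for all `i`. In particular for almost all `a` this holds for all
`κ > 1/2 - (1 - θ - τ) / (2 ⌊n/2⌋)`, and simultaneously for all the members of a countable family of representations
over arbitrary number fields. For geometric sequences and `n = 2, 3` the exponent is `κ > θ/2`, which is arbitrarily small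
in narrow windows.

The best bounds which are known for all places are `7/64` for `n = 2`, `5/14` for `n = 3`, `9/22` for `n = 4` and
`1/2 - 1/(n² + 1)` for `n ≥ 5` (Kim-Sarnak, Blomer-Brumley, Luo-Rudnick-Sarnak).

The structure `Params` lists what is used of `π` (it is known): the local components are unitary, so that the parameters
are permuted by `α ↦ 1 / conj α`, and the Rankin-Selberg series `log L^S(s, π × π~)` converges absolutely for `s > 1`
(Jacquet-Shalika). The proof: at most `⌊n/2⌋` of the parameters at `v` are of modulus greater than one. So if the largest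
one is at least `(N v)^κ`, a power sum of the parameters of order `k ≤ ⌊n/2⌋` is at least `(N v)^{κ k} / (2 n)`, by the
identities of Newton, and by the Rankin-Selberg series there are at most `X^{⌊n/2⌋ (1 - 2 κ) + ε}` such places of norm
at most `X`. The numbers `a` for which these norms are in infinitely many windows are then covered.
-/

set_option autoImplicit false

namespace Pool.Agent.Results.MP_8410ab_nt.WindowsOfPlaces

open NumberField IsDedekindDomain Filter MeasureTheory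

/-- the norm of a finite place -/
noncomputable def nm {K : Type} [Field K] [NumberField K] (v : HeightOneSpectrum (𝓞 K)) : ℝ :=
  (Ideal.absNorm v.asIdeal : ℝ)

/-- The Satake parameters `α v i` of a unitary cuspidal automorphic representation of `GL_n` over `K` at the finite places
`v` outside of the finite set `bad`, and what is used of them: the parameters at `v` are permuted by `α ↦ 1 / conj α`, and
the series `∑_v ∑_k |∑_i α_{v,i}^k|² / k · (N v)^{-k s}` converges for `s > 1`. -/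
structure Params (K : Type) [Field K] [NumberField K] (n : ℕ) where
  bad : Finset (HeightOneSpectrum (𝓞 K))
  α : HeightOneSpectrum (𝓞 K) → Fin n → ℂ
  unitary : ∀ v ∉ bad, ∃ σ : Equiv.Perm (Fin n), ∀ i, α v (σ i) * (starRingEnd ℂ) (α v i) = 1
  rankinSelberg : ∀ s : ℝ, 1 < s → Summable fun p : {v // v ∉ bad} × ℕ =>
    ‖∑ i, α p.1 i ^ (p.2 + 1)‖ ^ 2 / (p.2 + 1) * nm p.1.1 ^ (-(s * (p.2 + 1)))

section
variable {K : Type} [Field K] [NumberField K] {n : ℕ}

/-- the parameters at all the places `v` with `|N v - x| ≤ y` are between `(N v)^{-κ}` and `(N v)^κ` in modulus -/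
def Good (P : Params K n) (κ x y : ℝ) : Prop :=
  ∀ v : HeightOneSpectrum (𝓞 K), v ∉ P.bad → |nm v - x| ≤ y →
    ∀ i, nm v ^ (-κ) < ‖P.α v i‖ ∧ ‖P.α v i‖ < nm v ^ κ

lemma two_le_nm (v : HeightOneSpectrum (𝓞 K)) : 2 ≤ nm v := Pool.Agent.H107.Ram.two_le_nm v

lemma unit_norm (P : Params K n) {v : HeightOneSpectrum (𝓞 K)} (hv : v ∉ P.bad) :
    ∃ σ : Equiv.Perm (Fin n), ∀ i, ‖P.α v (σ i)‖ = ‖P.α v i‖⁻¹ := by
  obtain ⟨σ, hσ⟩ := P.unitary v hv
  refine ⟨σ, fun i => ?_⟩
  have h := congrArg norm (hσ i)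
  rw [norm_mul, norm_one, RCLike.norm_conj] at h
  exact eq_inv_of_mul_eq_one_left h

/-- windows for one representation -/
lemma one (P : Params K n) {u : ℕ → ℝ} {τ θ : ℝ} (hu : ∀ m, 1 ≤ u m) (hτ : 0 ≤ τ)
    (hgrow : ∀ t : ℝ, τ < t → Summable fun m : ℕ => u m ^ (-t)) (hθ : θ < 1) {κ : ℝ} (hκ : 0 < κ) (hκ2 : κ ≤ 1 / 2) :
    ∃ E : Set ℝ, dimH E ≤ ENNReal.ofReal ((((n / 2 : ℕ) : ℝ) * (1 - 2 * κ) + τ) / (1 - θ)) ∧
      ∀ a : ℝ, 0 < a → a ∉ E → ∀ᶠ m in atTop, Good P κ (a * u m) (u m ^ θ) := by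
  have hs : 0 ≤ ((n / 2 : ℕ) : ℝ) * (1 - 2 * κ) := mul_nonneg (Nat.cast_nonneg _) (by linarith)
  obtain ⟨E, h1, h2⟩ := Pool.Agent.Y854.GM.windows
    {v : HeightOneSpectrum (𝓞 K) | v ∉ P.bad ∧ ∃ i, nm v ^ κ ≤ ‖P.α v i‖} nm hu hτ hgrow hs hθ
    (fun ε hε => Pool.Agent.H107.Ram.count P.bad P.α (fun v hv => unit_norm P hv) P.rankinSelberg hκ hκ2 ε hε)
  refine ⟨E, h1, fun a ha haE => ?_⟩
  obtain ⟨m₀, hm₀⟩ := h2 a ha haE
  refine Filter.eventually_atTop.2 ⟨m₀, fun m hm v hv hva i => ?_⟩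
  have hlt : ∀ i, ‖P.α v i‖ < nm v ^ κ := by
    intro i
    by_contra hcon
    rw [not_lt] at hcon
    exact absurd hva (not_le.2 (hm₀ m hm v ⟨hv, i, hcon⟩))
  refine ⟨?_, hlt i⟩
  obtain ⟨σ, hσ⟩ := unit_norm P hv
  have h3 := hlt (σ i)
  have hN := two_le_nm v
  have hN0 : 0 < nm v := by linarith
  have hpos : 0 < nm v ^ κ := Real.rpow_pos_of_pos hN0 _
  obtain ⟨σ', hσ'⟩ := P.unitary v hv
  have hne : 0 < ‖P.α v i‖ := by
    rw [norm_pos_iff]
    intro h0
    have := hσ' i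
    rw [h0, map_zero, mul_zero] at this
    exact zero_ne_one this
  rw [hσ i] at h3
  rw [Real.rpow_neg hN0.le]
  exact inv_lt_of_inv_lt₀ hne h3

lemma Good.mono {P : Params K n} {κ κ' x y : ℝ} (h : κ ≤ κ') (hg : Good P κ x y) : Good P κ' x y := by
  intro v hv hvx i
  obtain ⟨h1, h2⟩ := hg v hv hvx i
  have hN := two_le_nm v
  exact ⟨lt_of_le_of_lt (Real.rpow_le_rpow_of_exponent_le (by linarith) (by linarith)) h1,
    h2.trans_le (Real.rpow_le_rpow_of_exponent_le (by linarith) h)⟩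

end

/-- **Theorem.** Let `P j` be the Satake parameters of a countable family of unitary cuspidal representations of
`GL_(n j)` over number fields `K j`, let `1 ≤ u_m`, `∑_m u_m^{-t} < ∞` for all `t > τ`, and `θ < 1`.
(1) For all `N` and `0 < κ ≤ 1/2`, for all `a > 0` outside of a set of Hausdorff dimension at most
`(⌊N/2⌋ (1 - 2κ) + τ) / (1 - θ)`, and for all `j` with `n j ≤ N`, for all large `m` all the parameters of `P j` at the
places `v` with `|N v - a u_m| ≤ u_m^θ` are between `(N v)^{-κ}` and `(N v)^κ` in modulus.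
(2) For almost all `a > 0` the same holds for all `j` and all `0 < κ ≤ 1/2` with `⌊n j / 2⌋ (1 - 2κ) + τ < 1 - θ`. -/
theorem result {J : Type} [Countable J] (K : J → Type) [∀ j, Field (K j)] [∀ j, NumberField (K j)] (n : J → ℕ)
    (P : ∀ j, Params (K j) (n j)) (u : ℕ → ℝ) (τ θ : ℝ) (hu : ∀ m, 1 ≤ u m) (hτ : 0 ≤ τ)
    (hgrow : ∀ t : ℝ, τ < t → Summable fun m : ℕ => u m ^ (-t)) (hθ : θ < 1) :
    (∀ (N : ℕ) (κ : ℝ), 0 < κ → κ ≤ 1 / 2 → ∃ E : Set ℝ,
      dimH E ≤ ENNReal.ofReal ((((N / 2 : ℕ) : ℝ) * (1 - 2 * κ) + τ) / (1 - θ)) ∧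
      ∀ a : ℝ, 0 < a → a ∉ E → ∀ j, n j ≤ N → ∀ᶠ m in atTop, Good (P j) κ (a * u m) (u m ^ θ)) ∧
    ∀ᵐ a : ℝ, 0 < a → ∀ (j : J) (κ : ℝ), 0 < κ → κ ≤ 1 / 2 →
      ((n j / 2 : ℕ) : ℝ) * (1 - 2 * κ) + τ < 1 - θ → ∀ᶠ m in atTop, Good (P j) κ (a * u m) (u m ^ θ) := by
  constructor
  · intro N κ hκ hκ2
    choose E hE1 hE2 using fun j => one (P j) hu hτ hgrow hθ hκ hκ2
    refine ⟨⋃ j : {j // n j ≤ N}, E j, ?_, fun a ha haE j hj => ?_⟩
    · rw [dimH_iUnion]
      refine iSup_le fun j => (hE1 j.1).trans (ENNReal.ofReal_le_ofReal ?_)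
      have h1 : ((n j.1 / 2 : ℕ) : ℝ) ≤ ((N / 2 : ℕ) : ℝ) := by
        exact_mod_cast Nat.div_le_div_right j.2
      refine div_le_div_of_nonneg_right ?_ (by linarith)
      have := mul_le_mul_of_nonneg_right h1 (show (0 : ℝ) ≤ 1 - 2 * κ by linarith)
      linarith
    · exact hE2 j a ha fun h => haE (Set.mem_iUnion.2 ⟨⟨j, hj⟩, h⟩)
  · have hq : ∀ (j : J) (q : ℚ), ∀ᵐ a : ℝ, 0 < (q : ℝ) → (q : ℝ) ≤ 1 / 2 →
        ((n j / 2 : ℕ) : ℝ) * (1 - 2 * q) + τ < 1 - θ → 0 < a →
          ∀ᶠ m in atTop, Good (P j) q (a * u m) (u m ^ θ) := by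
      intro j q
      by_cases h : 0 < (q : ℝ) ∧ (q : ℝ) ≤ 1 / 2 ∧ ((n j / 2 : ℕ) : ℝ) * (1 - 2 * q) + τ < 1 - θ
      · obtain ⟨h1, h2, h3⟩ := h
        obtain ⟨E, hE1, hE2⟩ := one (P j) hu hτ hgrow hθ h1 h2
        have hnull : volume E = 0 := by
          rw [← hausdorffMeasure_real]
          refine hausdorffMeasure_of_dimH_lt (d := 1) ?_
          refine hE1.trans_lt ?_
          have g1 : (((n j / 2 : ℕ) : ℝ) * (1 - 2 * q) + τ) / (1 - θ) < 1 := by
            rw [div_lt_one (by linarith)]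
            exact h3
          have g2 := (ENNReal.ofReal_lt_one).2 g1
          simpa using g2
        filter_upwards [compl_mem_ae_iff.2 hnull] with a ha _ _ _ ha0
        exact hE2 a ha0 ha
      · exact Filter.Eventually.of_forall fun a h1 h2 h3 _ => absurd ⟨h1, h2, h3⟩ h
    have hall : ∀ᵐ a : ℝ, ∀ (j : J) (q : ℚ), 0 < (q : ℝ) → (q : ℝ) ≤ 1 / 2 →
        ((n j / 2 : ℕ) : ℝ) * (1 - 2 * q) + τ < 1 - θ → 0 < a →
          ∀ᶠ m in atTop, Good (P j) q (a * u m) (u m ^ θ) := by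
      rw [ae_all_iff]
      intro j
      rw [ae_all_iff]
      exact hq j
    filter_upwards [hall] with a ha ha0 j κ hκ hκ2 hcond
    set c : ℝ := ((n j / 2 : ℕ) : ℝ) with hc
    have hc0 : 0 ≤ c := Nat.cast_nonneg _
    set η : ℝ := (1 - θ - τ - c * (1 - 2 * κ)) / (2 * c + 1) with hη
    have hη0 : 0 < η := div_pos (by linarith) (by linarith)
    obtain ⟨q, hq1, hq2⟩ := exists_rat_btwn (show max 0 (κ - η) < κ from max_lt hκ (by linarith))
    have hq0 : 0 < (q : ℝ) := (le_max_left _ _).trans_lt hq1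
    have hqη : κ - η < q := (le_max_right _ _).trans_lt hq1
    have hηc : η * (2 * c + 1) = 1 - θ - τ - c * (1 - 2 * κ) := by
      rw [hη, div_mul_cancel₀ _ (by linarith : (2 * c + 1) ≠ 0)]
    have hcond' : c * (1 - 2 * q) + τ < 1 - θ := by
      have h1 : c * (κ - q) ≤ c * η := mul_le_mul_of_nonneg_left (by linarith) hc0
      nlinarith
    exact (ha j q hq0 (by linarith) hcond' ha0).mono fun m hm => hm.mono hq2.le

end Pool.Agent.Results.MP_8410ab_nt.WindowsOfPlaces
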